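import Pool.Agent.Y746.OJ.Stm

/-!
# The logarithmic derivative of the zeta function is integrable over rectangles
-/

set_option autoImplicit false

namespace Pool.Agent.Y153.OJ

open Filter Topology MeasureTheory Set
open Pool.Agent.Y746.OJ

theorem sq_int (a : ℝ) {r : ℝ} (hr : 0 < r) :
    IntegrableOn (fun x : ℝ => (Real.sqrt |x - a|)⁻¹) (Metric.ball a r) := by
  have h0 : IntervalIntegrable (fun x : ℝ => (Real.sqrt |x|)⁻¹) volume 0 r := by
    have h1 : IntervalIntegrable (fun x : ℝ => x ^ (-(1 / 2) : ℝ)) volume 0 r :=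
      intervalIntegral.intervalIntegrable_rpow' (by norm_num)
    rw [intervalIntegrable_iff_integrableOn_Ioc_of_le hr.le] at h1 ⊢
    refine h1.congr_fun (fun x hx => ?_) measurableSet_Ioc
    change x ^ (-(1 / 2) : ℝ) = (Real.sqrt |x|)⁻¹
    rw [abs_of_pos hx.1, Real.rpow_neg hx.1.le, Real.sqrt_eq_rpow]
  have h2 : IntervalIntegrable (fun x : ℝ => (Real.sqrt |x|)⁻¹) volume (-r) 0 := by
    rw [IntervalIntegrable.iff_comp_neg]
    simpa using h0.symm
  have h3 := (h2.trans h0).comp_sub_right a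
  rw [intervalIntegrable_iff_integrableOn_Ioc_of_le (by linarith)] at h3
  refine h3.mono_set ?_
  rw [Real.ball_eq_Ioo]
  exact fun x hx => ⟨by linarith [hx.1], by linarith [hx.2]⟩

theorem zeta_analytic {s : ℂ} (hs : s ≠ 1) : AnalyticAt ℂ riemannZeta s := by
  have h1 : DifferentiableOn ℂ riemannZeta {1}ᶜ := fun z hz =>
    (differentiableAt_riemannZeta hz).differentiableWithinAt
  exact h1.analyticAt (isOpen_compl_singleton.mem_nhds hs)

theorem zeta_not_zero {s : ℂ} (hs : s ≠ 1) : ¬ ∀ᶠ z in 𝓝 s, riemannZeta z = 0 := by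
  intro h
  have hA : AnalyticOnNhd ℂ riemannZeta {1}ᶜ := fun z hz => zeta_analytic hz
  have hc : IsPreconnected ({1}ᶜ : Set ℂ) :=
    (isConnected_compl_singleton_of_one_lt_rank
      (by rw [Complex.rank_real_complex]; norm_num) 1).isPreconnected
  have h1 := hA.eqOn_zero_of_preconnected_of_eventuallyEq_zero hc hs h
  have h2 : (2 : ℂ) ∈ ({1}ᶜ : Set ℂ) := by
    simp only [mem_compl_iff, mem_singleton_iff]
    norm_num
  have h3 := h1 h2
  exact riemannZeta_ne_zero_of_one_lt_re (s := 2) (by norm_num) h3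

/-- local form of the logarithmic derivative -/
theorem LD_local {s : ℂ} (hs : s ≠ 1) : ∃ (n : ℕ) (C : ℝ), 0 ≤ C ∧
    ∀ᶠ z in 𝓝 s, z ≠ s → ‖LD z‖ ≤ n * ‖z - s‖⁻¹ + C := by
  obtain ⟨n, g, hg, hg0, hgz⟩ :=
    ((zeta_analytic hs).exists_eventuallyEq_pow_smul_nonzero_iff).2 (zeta_not_zero hs)
  have hcont : ContinuousAt (fun z => ‖deriv g z / g z‖) s :=
    (hg.deriv.continuousAt.div hg.continuousAt hg0).norm
  have h1 : ∀ᶠ z in 𝓝 s, ‖deriv g z / g z‖ < ‖deriv g s / g s‖ + 1 :=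
    hcont.eventually (gt_mem_nhds (by linarith))
  have h2 : ∀ᶠ z in 𝓝 s, g z ≠ 0 := hg.continuousAt.eventually_ne hg0
  have h3 : ∀ᶠ z in 𝓝 s, DifferentiableAt ℂ g z :=
    hg.eventually_analyticAt.mono fun z hz => hz.differentiableAt
  have h4 : deriv riemannZeta =ᶠ[𝓝 s] deriv (fun z => (z - s) ^ n • g z) :=
    EventuallyEq.deriv hgz
  refine ⟨n, ‖deriv g s / g s‖ + 1, by positivity, ?_⟩
  filter_upwards [h1, h2, h3, h4, hgz] with z a1 a2 a3 a4 a5 hz
  have hzs : z - s ≠ 0 := sub_ne_zero.2 hz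
  have e1 : LD z = n / (z - s) + deriv g z / g z := by
    unfold LD
    rw [a4, a5]
    have d1 : HasDerivAt (fun z => (z - s) ^ n • g z)
        (n * (z - s) ^ (n - 1) * 1 * g z + (z - s) ^ n * deriv g z) z :=
      (((hasDerivAt_id z).sub_const s).fun_pow n).fun_mul a3.hasDerivAt
    rw [d1.deriv, smul_eq_mul]
    rcases Nat.eq_zero_or_pos n with h | h
    · subst h
      simp
    · obtain ⟨k, rfl⟩ : ∃ k, n = k + 1 := ⟨n - 1, by omega⟩
      rw [Nat.add_sub_cancel, pow_succ]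
      field_simp
  rw [e1]
  refine (norm_add_le _ _).trans (add_le_add ?_ a1.le)
  rw [norm_div, div_eq_mul_inv, Complex.norm_natCast]

theorem LD_meas : Measurable fun p : ℝ × ℝ => LD (pt p.1 p.2) := by
  have h1 : Measurable riemannZeta := by
    refine measurable_of_continuousOn_compl_singleton 1 fun z hz => ?_
    exact (differentiableAt_riemannZeta hz).continuousAt.continuousWithinAt
  have h2 : Measurable LD := (measurable_deriv riemannZeta).div h1
  refine h2.comp ?_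
  unfold pt
  fun_prop

theorem t_LI : S_LI := by
  intro U1 U2 hU
  have hK : IsCompact (Icc (1 / 2 : ℝ) (3 / 2) ×ˢ Icc U1 U2) := isCompact_Icc.prod isCompact_Icc
  refine LocallyIntegrableOn.integrableOn_isCompact (fun p hp => ?_) hK
  obtain ⟨a, b⟩ := p
  have hb : 1 ≤ b := hU.trans hp.2.1
  have hs : pt a b ≠ 1 := by
    intro h
    have h1 := congrArg Complex.im h
    simp [pt] at h1
    linarith
  obtain ⟨n, C, hC, hloc⟩ := LD_local hs
  have hcont : Continuous fun p : ℝ × ℝ => pt p.1 p.2 := by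
    unfold pt
    fun_prop
  have h1 : ∀ᶠ p : ℝ × ℝ in 𝓝 (a, b), pt p.1 p.2 ≠ pt a b →
      ‖LD (pt p.1 p.2)‖ ≤ n * ‖pt p.1 p.2 - pt a b‖⁻¹ + C :=
    (hcont.tendsto (a, b)).eventually hloc
  obtain ⟨r, hr, hrs⟩ := Metric.eventually_nhds_iff_ball.1 h1
  refine ⟨Metric.ball (a, b) r, mem_nhdsWithin_of_mem_nhds (Metric.ball_mem_nhds _ hr), ?_⟩
  set D : ℝ × ℝ → ℝ := fun p => n * ((Real.sqrt |p.1 - a|)⁻¹ * (Real.sqrt |p.2 - b|)⁻¹) + C
    with hD
  have hDi : IntegrableOn D (Metric.ball (a, b) r) := by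
    rw [← ball_prod_same]
    have h2 : IntegrableOn (fun p : ℝ × ℝ => (Real.sqrt |p.1 - a|)⁻¹ * (Real.sqrt |p.2 - b|)⁻¹)
        (Metric.ball a r ×ˢ Metric.ball b r) := by
      have h3 := (sq_int a hr).mul_prod (sq_int b hr)
      rw [Measure.prod_restrict] at h3
      exact h3
    refine (h2.const_mul _).add ?_
    refine integrableOn_const ?_
    rw [ball_prod_same]
    exact measure_ball_lt_top.ne
  refine Integrable.mono' hDi LD_meas.aestronglyMeasurable ?_
  rw [ae_restrict_iff' measurableSet_ball]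
  have n1 : ∀ᵐ p : ℝ × ℝ, p.1 ≠ a :=
    Measure.quasiMeasurePreserving_fst.ae (compl_mem_ae_iff.2 (measure_singleton a))
  have n2 : ∀ᵐ p : ℝ × ℝ, p.2 ≠ b :=
    Measure.quasiMeasurePreserving_snd.ae (compl_mem_ae_iff.2 (measure_singleton b))
  filter_upwards [n1, n2] with p hp1 hp2 hp3
  have hne : pt p.1 p.2 ≠ pt a b := by
    intro h
    apply hp1
    have := congrArg Complex.re h
    simpa [pt] using this
  refine (hrs p hp3 hne).trans ?_
  rw [hD]
  simp only
  gcongr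
  have hx : 0 < Real.sqrt |p.1 - a| := Real.sqrt_pos.2 (abs_pos.2 (sub_ne_zero.2 hp1))
  have hy : 0 < Real.sqrt |p.2 - b| := Real.sqrt_pos.2 (abs_pos.2 (sub_ne_zero.2 hp2))
  rw [← mul_inv]
  refine inv_anti₀ (mul_pos hx hy) ?_
  have e1 : pt p.1 p.2 - pt a b = ⟨p.1 - a, p.2 - b⟩ := by
    apply Complex.ext <;> simp [pt]
  rw [e1, ← Real.sqrt_mul (abs_nonneg _), Complex.norm_def]
  refine Real.sqrt_le_sqrt ?_
  rw [Complex.normSq_mk]
  have h5 := sq_abs (p.1 - a)
  have h6 := sq_abs (p.2 - b)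
  nlinarith [sq_nonneg (|p.1 - a| - |p.2 - b|), abs_nonneg (p.1 - a), abs_nonneg (p.2 - b),
    mul_nonneg (abs_nonneg (p.1 - a)) (abs_nonneg (p.2 - b))]

end Pool.Agent.Y153.OJ
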